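import Pool.Graph.R_pool_sql_team_seeded_2aa45f1a.Q49.WU.Pair

/-!
# Objects all of whose simple constituents are effective at their level

Let `D` be a cohomology theory with compact supports with values in a semisimple abelian category with
Tate twists, and `lev` a function on the simple objects which is invariant under Tate twists. The
objects `M` such that each simple subobject `N` of `M` is, up to a Tate twist, a subobject of
`H^l(Y)`, `l = lev N`, for some smooth projective `Y`, form a Serre class which is stable under Tate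
twists.
-/

set_option autoImplicit false

open CategoryTheory CategoryTheory.Limits AlgebraicGeometry Pool.Agent.Y116.UV Pool.Agent.Z125.UN
  Pool.Agent.Q193.LT Pool.Agent.Q49.WU

universe v u

namespace Pool.Agent.H841.Eff

variable {K : Type} [Field K] {A : Type u} [Category.{v} A] [Abelian A]

/-- Each simple subobject `N` of `M` is, up to a Tate twist, a subobject of the cohomology in degree
`lev N` of a smooth projective scheme. -/
def Effective (D : CompactData K A) (lev : A → ℕ) (M : A) : Prop :=
  ∀ N : A, Simple N → (∃ f : N ⟶ M, Mono f) →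
    ∃ (Y : Sch K) (a : ℤ) (g : N ⟶ (D.tw a).obj (D.H (lev N) Y)), SmoothProj Y ∧ Mono g

variable {D : CompactData K A}

/-- Tate twists preserve monomorphisms in a semisimple category. -/
theorem tw_mono (hss : ∀ {X Y : A} (f : X ⟶ Y), Mono f → ∃ r : Y ⟶ X, f ≫ r = 𝟙 X) (a : ℤ)
    {X Y : A} (f : X ⟶ Y) (hf : Mono f) : Mono ((D.tw a).map f) := by
  obtain ⟨r, hr⟩ := hss f hf
  have h : (D.tw a).map f ≫ (D.tw a).map r = 𝟙 _ := by
    rw [← CategoryTheory.Functor.map_comp, hr, CategoryTheory.Functor.map_id]
  exact mono_of_mono_fac h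

/-- The composite of the twists by `a` and `-a` is isomorphic to the identity. -/
theorem tw_inv (hD : IsCompact D) (a b : ℤ) (h : a + b = 0) :
    Nonempty (D.tw a ⋙ D.tw b ≅ 𝟭 A) := by
  obtain ⟨e0⟩ := hD.twZero
  obtain ⟨e⟩ := hD.twAdd a b
  rw [h] at e
  exact ⟨e ≪≫ e0⟩

/-- Tate twists of simple objects are simple. -/
theorem tw_simple (hD : IsCompact D)
    (hss : ∀ {X Y : A} (f : X ⟶ Y), Mono f → ∃ r : Y ⟶ X, f ≫ r = 𝟙 X) (a : ℤ) {N : A}
    (hN : Simple N) : Simple ((D.tw a).obj N) := by
  obtain ⟨e⟩ := tw_inv hD a (-a) (by ring)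
  obtain ⟨e'⟩ := tw_inv hD (-a) a (by ring)
  have hadd := hD.twAdditive
  refine ⟨fun {Y} f hf => ?_⟩
  constructor
  · intro h h0
    have hz : IsZero ((D.tw a).obj N) := by
      have h1 : IsZero Y := by
        have := hf
        rw [h0] at this
        exact IsZero.of_mono_eq_zero (0 : Y ⟶ (D.tw a).obj N) rfl
      exact h1.of_iso (asIso f).symm
    have h2 : IsZero ((D.tw (-a)).obj ((D.tw a).obj N)) := Functor.map_isZero _ hz
    have h3 : IsZero N := h2.of_iso (e.app N).symm
    exact (Simple.not_isZero N) h3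
  · intro h0
    -- the twist of `f` is a mono to a simple object
    let g : (D.tw (-a)).obj Y ⟶ N := (D.tw (-a)).map f ≫ (e.app N).hom
    have hg : Mono g := by
      have := tw_mono (D := D) hss (-a) f hf
      exact mono_comp _ _
    have hgn : g ≠ 0 := by
      intro hg0
      apply h0
      have h1 : (D.tw (-a)).map f = 0 := by
        have h2 : ((D.tw (-a)).map f ≫ (e.app N).hom) ≫ (e.app N).inv = 0 := by
          rw [show (D.tw (-a)).map f ≫ (e.app N).hom = g from rfl, hg0, zero_comp]
        rwa [Category.assoc, Iso.hom_inv_id, Category.comp_id] at h2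
      have h3 : (D.tw a).map ((D.tw (-a)).map f) = 0 := by rw [h1, Functor.map_zero]
      have h4 := e'.hom.naturality f
      simp only [Functor.comp_map, Functor.id_map] at h4
      rw [h3, zero_comp] at h4
      have h5 : e'.inv.app Y ≫ (e'.hom.app Y ≫ f) = 0 := by rw [← h4, comp_zero]
      have h6 : e'.inv.app Y ≫ (e'.hom.app Y ≫ f) = f := by
        rw [← Category.assoc, Iso.inv_hom_id_app]
        exact Category.id_comp f
      rw [← h6, h5]
    have hi : IsIso g := (Simple.mono_isIso_iff_nonzero g).2 hgn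
    have hi2 : IsIso ((D.tw (-a)).map f) := by
      have : (D.tw (-a)).map f = g ≫ (e.app N).inv := by
        change _ = ((D.tw (-a)).map f ≫ (e.app N).hom) ≫ (e.app N).inv
        rw [Category.assoc, Iso.hom_inv_id, Category.comp_id]
      rw [this]
      infer_instance
    have hi3 : IsIso ((D.tw a).map ((D.tw (-a)).map f)) := inferInstance
    have h4 := e'.hom.naturality f
    simp only [Functor.comp_map, Functor.id_map] at h4
    have h5 : f = e'.inv.app Y ≫ (D.tw a).map ((D.tw (-a)).map f) ≫ e'.hom.app ((D.tw a).obj N) := by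
      rw [h4, ← Category.assoc, Iso.inv_hom_id_app]
      exact (Category.id_comp f).symm
    rw [h5]
    infer_instance

/-- The effective objects form a Serre class stable under Tate twists. -/
theorem effective_serre (hD : IsCompact D)
    (hss : ∀ {X Y : A} (f : X ⟶ Y), Mono f → ∃ r : Y ⟶ X, f ≫ r = 𝟙 X) {lev : A → ℕ}
    (hlev : ∀ (a : ℤ) (N : A), Simple N → lev ((D.tw a).obj N) = lev N) :
    IsTateSerre D (Effective D lev) := by
  have h := serre_of_semisimple (S := Effective D lev) hss ?_ ?_ ?_
  · refine { toIsSerre := h, twist := ?_ }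
    rintro a M hM N hN ⟨f, hf⟩
    obtain ⟨e⟩ := tw_inv hD a (-a) (by ring)
    obtain ⟨e'⟩ := tw_inv hD (-a) a (by ring)
    have hm := tw_mono (D := D) hss (-a) f hf
    have h1 := hM ((D.tw (-a)).obj N) (tw_simple hD hss (-a) hN)
      ⟨(D.tw (-a)).map f ≫ (e.app M).hom, mono_comp _ _⟩
    rw [hlev (-a) N hN] at h1
    obtain ⟨Y, b, g, hY, hg⟩ := h1
    obtain ⟨e2⟩ := hD.twAdd b a
    have hm2 := tw_mono (D := D) hss a g hg
    refine ⟨Y, b + a, (e'.app N).inv ≫ (D.tw a).map g ≫ (e2.app _).hom, hY, ?_⟩
    exact mono_comp _ _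
  · rintro X hX N hN ⟨f, hf⟩
    exact absurd (IsZero.of_mono f hX) (Simple.not_isZero N)
  · rintro X Y i r hir hY N hN ⟨f, hf⟩
    have hi : Mono i := mono_of_mono_fac hir
    exact hY N hN ⟨f ≫ i, mono_comp _ _⟩
  · rintro X Y hX hY N hN ⟨f, hf⟩
    by_cases h1 : f ≫ biprod.fst = 0
    · by_cases h2 : f ≫ biprod.snd = 0
      · exfalso
        have h3 : f = 0 := by
          apply biprod.hom_ext
          · rw [h1, zero_comp]
          · rw [h2, zero_comp]
        exact Simple.not_isZero N (IsZero.of_mono_eq_zero f h3)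
      · exact hY N hN ⟨f ≫ biprod.snd, mono_of_nonzero_from_simple h2⟩
    · exact hX N hN ⟨f ≫ biprod.fst, mono_of_nonzero_from_simple h1⟩

end Pool.Agent.H841.Eff
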